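import Pool.Agent.Lib.MP_65b7ad_nt.DL.All

namespace Pool.Agent.Results.MP_65b7ad_nt.DiagonalHasse

theorem result : ∃ C : ℝ, ∀ H : ℕ, 16 ≤ H →
    (Set.ncard {t : ℤ × ℤ × ℤ | t ≠ 0 ∧ |t.1| ≤ H ∧ |t.2.1| ≤ H ∧ |t.2.2| ≤ H ∧
      ∃ x y z : ℤ, ¬ (x = 0 ∧ y = 0 ∧ z = 0) ∧
        t.1 * x ^ 3 + t.2.1 * y ^ 3 + t.2.2 * z ^ 3 = 0} : ℝ) ≤
      C * ((Set.ncard {t : ℤ × ℤ × ℤ | t ≠ 0 ∧ |t.1| ≤ H ∧ |t.2.1| ≤ H ∧ |t.2.2| ≤ H ∧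
          (∃ x y z : ℝ, ¬ (x = 0 ∧ y = 0 ∧ z = 0) ∧
            (t.1 : ℝ) * x ^ 3 + (t.2.1 : ℝ) * y ^ 3 + (t.2.2 : ℝ) * z ^ 3 = 0) ∧
          ∀ (p : ℕ) [Fact p.Prime], ∃ x y z : ℚ_[p], ¬ (x = 0 ∧ y = 0 ∧ z = 0) ∧
            (t.1 : ℚ_[p]) * x ^ 3 + (t.2.1 : ℚ_[p]) * y ^ 3 + (t.2.2 : ℚ_[p]) * z ^ 3 = 0} : ℝ) /
        Real.log H) :=
  Pool.Agent.Lib.MP_65b7ad_nt.DL.hasse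

end Pool.Agent.Results.MP_65b7ad_nt.DiagonalHasse
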