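import Pool.Agent.Lib.MP_65b7ad_nt.F

namespace Pool.Agent.Results.MP_65b7ad_nt.SmallPoints

theorem result (ε : ℝ) (hε : 0 < ε) : ∃ C : ℝ, ∀ H B : ℕ, 1 ≤ H → 1 ≤ B →
    (Set.ncard {a : Fin 10 → ℤ | a ≠ 0 ∧ (∀ i, |a i| ≤ H) ∧ ∃ x y z : ℤ,
      ¬ (x = 0 ∧ y = 0 ∧ z = 0) ∧ |x| ≤ B ∧ |y| ≤ B ∧ |z| ≤ B ∧
      a 0 * x ^ 3 + a 1 * x ^ 2 * y + a 2 * x ^ 2 * z + a 3 * x * y ^ 2 + a 4 * x * y * z +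
        a 5 * x * z ^ 2 + a 6 * y ^ 3 + a 7 * y ^ 2 * z + a 8 * y * z ^ 2 + a 9 * z ^ 3 = 0} : ℝ) ≤
      C * (H : ℝ) ^ ε * ((H : ℝ) ^ 9 + (B : ℝ) * (H : ℝ) ^ 7) := by
  classical
  obtain ⟨C, hC⟩ := Pool.Agent.Lib.MP_65b7ad_nt.main hε
  refine ⟨C, fun H B hH hB => le_trans ?_ (hC H B hH hB)⟩
  rw [← Set.ncard_coe_finset]
  refine Nat.cast_le.2 (Set.ncard_le_ncard (fun a ha => ?_) (Finset.finite_toSet _))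
  exact Finset.mem_filter.2 ⟨Pool.Agent.Lib.MP_65b7ad_nt.mem_Bx.2 ha.2.1, ha.2.2⟩

end Pool.Agent.Results.MP_65b7ad_nt.SmallPoints
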